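import Pool.Agent.H31.SW.Tools2

/-!
# Module IB of the board `swl_modules`: partial integration along a vector field
-/

set_option autoImplicit false
set_option linter.unusedVariables false

open MeasureTheory Set Filter Complex
open scoped Topology

namespace Pool.Agent.H56.SWL

open Pool.Agent.H31.SW
open Pool.Agent.H29.DW (dg Rl lf)

/-- continuity of a function which is continuous near `K₀` and zero outside `K₀` -/
private theorem cont_of {S K₀ : Set ℂ} {F : ℂ → ℂ} (hK : IsCompact K₀) (hKS : K₀ ⊆ S)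
    (h1 : ∀ w ∈ S, ContinuousAt F w) (h2 : ∀ w, w ∉ K₀ → F w = 0) : Continuous F := by
  rw [continuous_iff_continuousAt]
  intro w
  by_cases hw : w ∈ K₀
  · exact h1 w (hKS hw)
  · have h3 : F =ᶠ[𝓝 w] fun _ => 0 := by
      filter_upwards [hK.isClosed.isOpen_compl.mem_nhds hw] with z hz using h2 z hz
    exact continuousAt_const.congr h3.symm

private theorem cs_of {K₀ : Set ℂ} {F : ℂ → ℂ} (hK : IsCompact K₀)
    (h2 : ∀ w, w ∉ K₀ → F w = 0) : HasCompactSupport F := HasCompactSupport.intro hK h2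

/-- the integral of a derivative in the direction `d` -/
private theorem int_dir {P P₁ P₂ : ℂ → ℂ} {K₀ : Set ℂ} (hK : IsCompact K₀)
    (hP : ∀ w, HD P P₁ P₂ w) (hP0 : ∀ w, w ∉ K₀ → P w = 0) (d : ℂ) (D : ℂ → ℂ)
    (hD : ∀ w, D w = ((d.re : ℝ) : ℂ) * P₁ w + ((d.im : ℝ) : ℂ) * P₂ w)
    (hDc : Continuous D) (hD0 : ∀ w, w ∉ K₀ → D w = 0) : ∫ w : ℂ, D w = 0 := by
  have hPc : Continuous P := continuous_iff_continuousAt.2 fun w => (hP w).continuousAt
  have he : ∀ w, fderiv ℝ P w d = D w := fun w => by rw [(hP w).fderiv, hD w]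
  have h := integral_mul_fderiv_eq_neg_fderiv_mul_of_integrable (μ := (volume : Measure ℂ))
    (f := P) (g := fun _ : ℂ => (1 : ℂ)) (v := d) ?_ ?_ ?_ (fun w _ => (hP w).differentiableAt)
    (fun w _ => differentiableAt_const _)
  · simp only [he, mul_one, fderiv_fun_const, Pi.zero_apply, ContinuousLinearMap.zero_apply,
      mul_zero, integral_zero] at h
    exact neg_eq_zero.1 h.symm
  · simp only [he, mul_one]
    exact hDc.integrable_of_hasCompactSupport (cs_of hK hD0)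
  · simp
  · simp only [mul_one]
    exact hPc.integrable_of_hasCompactSupport (cs_of hK hP0)

/-- the integral of a derivative on the real line -/
private theorem int_real {P P₁ P₂ : ℂ → ℂ} {K₀ : Set ℂ} (hK : IsCompact K₀)
    (hP : ∀ w, HD P P₁ P₂ w) (hP0 : ∀ w, w ∉ K₀ → P w = 0)
    (hDc : Continuous P₁) (hD0 : ∀ w, w ∉ K₀ → P₁ w = 0) : ∫ x : ℝ, P₁ x = 0 := by
  have hPc : Continuous P := continuous_iff_continuousAt.2 fun w => (hP w).continuousAt
  have hemb : Topology.IsClosedEmbedding (fun x : ℝ => (x : ℂ)) :=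
    Complex.isometry_ofReal.isClosedEmbedding
  refine integral_eq_zero_of_hasDerivAt_of_integrable (f := fun x : ℝ => P x) (fun x => ?_)
    ((hDc.comp Complex.continuous_ofReal).integrable_of_hasCompactSupport
      ((cs_of hK hD0).comp_isClosedEmbedding hemb))
    ((hPc.comp Complex.continuous_ofReal).integrable_of_hasCompactSupport
      ((cs_of hK hP0).comp_isClosedEmbedding hemb))
  have h1 : HasDerivAt (fun x : ℝ => (x : ℂ)) 1 x := Complex.ofRealCLM.hasDerivAt
  have h2 := HasFDerivAt.comp_hasDerivAt x (show HasFDerivAt P _ ((x : ℝ) : ℂ) from hP x) h1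
  have h3 : HasDerivAt (P ∘ fun x : ℝ => (x : ℂ)) (P₁ x) x := by simpa using h2
  exact h3

/-- the imaginary part of a holomorphic function -/
private theorem hd_im {f f' : ℂ → ℂ} {z : ℂ} (h : HasDerivAt f (f' z) z) :
    HD (fun z => (((f z).im : ℝ) : ℂ)) (fun z => (((f' z).im : ℝ) : ℂ))
      (fun z => (((f' z).re : ℝ) : ℂ)) z := by
  have h2 := h.hasFDerivAt.restrictScalars ℝ
  have h3 : HasFDerivAt (fun z : ℂ => ((z.im : ℝ) : ℂ))
      (Complex.ofRealCLM.comp Complex.imCLM) (f z) :=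
    (Complex.ofRealCLM.comp Complex.imCLM).hasFDerivAt
  refine hd_iff (HasFDerivAt.comp z h3 h2) ?_ ?_ <;> simp

theorem pf_IB : W_IB := by
  intro r S K₀ E E₁ E₂ g g₁ g₂ v v' hS hK hKS hE hE1 hE2 hg hg1 hg2 hg0 hv hvr
  have hKo : IsOpen K₀ᶜ := hK.isClosed.isOpen_compl
  have hz : ∀ w, w ∉ K₀ → g₁ w = 0 ∧ g₂ w = 0 := by
    intro w hw
    have h1 : g =ᶠ[𝓝 w] fun _ => 0 := by
      filter_upwards [hKo.mem_nhds hw] with z hz using hg0 z hz
    exact (hg w).unique ((hd_const 0 w).congr h1)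
  have hv'c : ∀ w ∈ S, ContinuousAt v' w := by
    intro w hw
    have h1 : DifferentiableOn ℂ v S := fun z hz => (hv z hz).differentiableAt.differentiableWithinAt
    have h2 : ContinuousAt (deriv v) w :=
      ((h1.deriv hS).differentiableAt (hS.mem_nhds hw)).continuousAt
    refine h2.congr ?_
    filter_upwards [hS.mem_nhds hw] with z hz using (hv z hz).deriv
  have hvc : ∀ w ∈ S, ContinuousAt v w := fun w hw => (hv w hw).continuousAt
  have hEc : ∀ w ∈ S, ContinuousAt E w := fun w hw => (hE w hw).continuousAt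
  have hE1c : ∀ w ∈ S, ContinuousAt E₁ w := fun w hw => hE1.continuousAt (hS.mem_nhds hw)
  have hE2c : ∀ w ∈ S, ContinuousAt E₂ w := fun w hw => hE2.continuousAt (hS.mem_nhds hw)
  have hgc : Continuous g := continuous_iff_continuousAt.2 fun w => (hg w).continuousAt
  have hre : ∀ {f : ℂ → ℂ} {w : ℂ}, ContinuousAt f w →
      ContinuousAt (fun w => (((f w).re : ℝ) : ℂ)) w := fun h =>
    (Complex.continuous_ofReal.comp Complex.continuous_re).continuousAt.comp h
  have him : ∀ {f : ℂ → ℂ} {w : ℂ}, ContinuousAt f w →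
      ContinuousAt (fun w => (((f w).im : ℝ) : ℂ)) w := fun h =>
    (Complex.continuous_ofReal.comp Complex.continuous_im).continuousAt.comp h
  -- the two vector fields
  obtain ⟨P, hPd⟩ : ∃ P : ℂ → ℂ, P = fun w => E w * g w * (((v w).re : ℝ) : ℂ) := ⟨_, rfl⟩
  obtain ⟨P₁, hP1d⟩ : ∃ P₁ : ℂ → ℂ, P₁ = fun w => (E₁ w * g w + E w * g₁ w) * (((v w).re : ℝ) : ℂ) +
    E w * g w * (((v' w).re : ℝ) : ℂ) := ⟨_, rfl⟩
  obtain ⟨P₂, hP2d⟩ : ∃ P₂ : ℂ → ℂ, P₂ = fun w => (E₂ w * g w + E w * g₂ w) * (((v w).re : ℝ) : ℂ) +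
    E w * g w * ((-(v' w).im : ℝ) : ℂ) := ⟨_, rfl⟩
  obtain ⟨Q, hQd⟩ : ∃ Q : ℂ → ℂ, Q = fun w => E w * g w * (((v w).im : ℝ) : ℂ) := ⟨_, rfl⟩
  obtain ⟨Q₁, hQ1d⟩ : ∃ Q₁ : ℂ → ℂ, Q₁ = fun w => (E₁ w * g w + E w * g₁ w) * (((v w).im : ℝ) : ℂ) +
    E w * g w * (((v' w).im : ℝ) : ℂ) := ⟨_, rfl⟩
  obtain ⟨Q₂, hQ2d⟩ : ∃ Q₂ : ℂ → ℂ, Q₂ = fun w => (E₂ w * g w + E w * g₂ w) * (((v w).im : ℝ) : ℂ) +
    E w * g w * (((v' w).re : ℝ) : ℂ) := ⟨_, rfl⟩
  have hP0 : ∀ w, w ∉ K₀ → P w = 0 := fun w hw => by simp [hPd, hg0 w hw]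
  have hQ0 : ∀ w, w ∉ K₀ → Q w = 0 := fun w hw => by simp [hQd, hg0 w hw]
  have hP10 : ∀ w, w ∉ K₀ → P₁ w = 0 := fun w hw => by simp [hP1d, hg0 w hw, (hz w hw).1]
  have hP20 : ∀ w, w ∉ K₀ → P₂ w = 0 := fun w hw => by simp [hP2d, hg0 w hw, (hz w hw).2]
  have hQ10 : ∀ w, w ∉ K₀ → Q₁ w = 0 := fun w hw => by simp [hQ1d, hg0 w hw, (hz w hw).1]
  have hQ20 : ∀ w, w ∉ K₀ → Q₂ w = 0 := fun w hw => by simp [hQ2d, hg0 w hw, (hz w hw).2]
  have hPh : ∀ w, HD P P₁ P₂ w := by
    intro w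
    by_cases hw : w ∈ K₀
    · rw [hPd, hP1d, hP2d]
      exact ((hE w (hKS hw)).mul (hg w)).mul (hd_re (hv w (hKS hw)))
    · have h1 : P =ᶠ[𝓝 w] fun _ => 0 := by
        filter_upwards [hKo.mem_nhds hw] with z hz using hP0 z hz
      exact hd_of_eq ((hd_const 0 w).congr h1) (hP10 w hw).symm (hP20 w hw).symm
  have hQh : ∀ w, HD Q Q₁ Q₂ w := by
    intro w
    by_cases hw : w ∈ K₀
    · rw [hQd, hQ1d, hQ2d]
      exact ((hE w (hKS hw)).mul (hg w)).mul (hd_im (hv w (hKS hw)))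
    · have h1 : Q =ᶠ[𝓝 w] fun _ => 0 := by
        filter_upwards [hKo.mem_nhds hw] with z hz using hQ0 z hz
      exact hd_of_eq ((hd_const 0 w).congr h1) (hQ10 w hw).symm (hQ20 w hw).symm
  have hP1c : Continuous P₁ := by
    refine cont_of hK hKS (fun w hw => ?_) hP10
    rw [hP1d]
    exact ((((hE1c w hw).mul hgc.continuousAt).add ((hEc w hw).mul hg1.continuousAt)).mul
      (hre (hvc w hw))).add (((hEc w hw).mul hgc.continuousAt).mul (hre (hv'c w hw)))
  have hQ2c : Continuous Q₂ := by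
    refine cont_of hK hKS (fun w hw => ?_) hQ20
    rw [hQ2d]
    exact ((((hE2c w hw).mul hgc.continuousAt).add ((hEc w hw).mul hg2.continuousAt)).mul
      (him (hvc w hw))).add (((hEc w hw).mul hgc.continuousAt).mul (hre (hv'c w hw)))
  -- the two sides
  obtain ⟨A, hA⟩ : ∃ A : ℂ → ℂ, A = fun w =>
    ((((v w).re : ℝ) : ℂ) * E₁ w + (((v w).im : ℝ) : ℂ) * E₂ w) * g w := ⟨_, rfl⟩
  obtain ⟨B, hB⟩ : ∃ B : ℂ → ℂ, B = fun w => E w * ((((v w).re : ℝ) : ℂ) * g₁ w +
    (((v w).im : ℝ) : ℂ) * g₂ w + ((dg r * (v' w).re : ℝ) : ℂ) * g w) := ⟨_, rfl⟩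
  have hA0 : ∀ w, w ∉ K₀ → A w = 0 := fun w hw => by simp [hA, hg0 w hw]
  have hB0 : ∀ w, w ∉ K₀ → B w = 0 := fun w hw => by
    simp [hB, hg0 w hw, (hz w hw).1, (hz w hw).2]
  have hAc : Continuous A := by
    refine cont_of hK hKS (fun w hw => ?_) hA0
    rw [hA]
    exact (((hre (hvc w hw)).mul (hE1c w hw)).add ((him (hvc w hw)).mul (hE2c w hw))).mul
      hgc.continuousAt
  have hBc : Continuous B := by
    refine cont_of hK hKS (fun w hw => ?_) hB0
    rw [hB]
    have h1 : ContinuousAt (fun w => ((dg r * (v' w).re : ℝ) : ℂ)) w := by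
      have h2 : ContinuousAt (fun w => ((dg r : ℝ) : ℂ) * (((v' w).re : ℝ) : ℂ)) w :=
        continuousAt_const.mul (hre (hv'c w hw))
      refine h2.congr (Eventually.of_forall fun z => ?_)
      push_cast
      ring
    exact (hEc w hw).mul ((((hre (hvc w hw)).mul hg1.continuousAt).add
      ((him (hvc w hw)).mul hg2.continuousAt)).add (h1.mul hgc.continuousAt))
  have hsum : itg r A + itg r B = 0 := by
    rw [← itg_add hAc (cs_of hK hA0) hBc (cs_of hK hB0)]
    cases r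
    · have h1 : itg false (fun w => A w + B w) = itg false (fun w => P₁ w + Q₂ w) := by
        refine itg_congr fun w _ => ?_
        rw [hA, hB, hP1d, hQ2d]
        have h2 : ((dg false : ℕ) : ℝ) = 2 := by norm_num [dg]
        simp only [h2]
        push_cast
        ring
      rw [h1, itg_add hP1c (cs_of hK hP10) hQ2c (cs_of hK hQ20), itg_false, itg_false,
        int_dir hK hPh hP0 1 P₁ (fun w => by simp) hP1c hP10,
        int_dir hK hQh hQ0 I Q₂ (fun w => by simp) hQ2c hQ20]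
      simp
    · have h1 : itg true (fun w => A w + B w) = itg true P₁ := by
        refine itg_congr fun w hw => ?_
        by_cases hwS : w ∈ S
        · rw [hA, hB, hP1d]
          have h2 : ((dg true : ℕ) : ℝ) = 1 := by norm_num [dg]
          have h3 : (v w).im = 0 := hvr w hwS hw rfl
          simp only [h2, h3]
          push_cast
          ring
        · have h2 : w ∉ K₀ := fun h => hwS (hKS h)
          rw [hA0 w h2, hB0 w h2, hP10 w h2, add_zero]
      rw [h1, itg_true, int_real hK hPh hP0 hP1c hP10]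
  have h1 := eq_neg_of_add_eq_zero_left hsum
  rw [hA, hB] at h1
  exact h1

end Pool.Agent.H56.SWL
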